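import Mathlib

namespace Pool.Agent.Results.MP_1231ed_gt.SquareRoots

open Polynomial

/-- All real numbers `f(t) + g(t) * s` with integer polynomials `f, g` such that
`f(-1) = e * f(1)`. -/
def piece (t s : ℝ) (e : ℤ) : Set ℝ :=
  {u | ∃ f g : ℤ[X], f.eval (-1) = e * f.eval 1 ∧ u = aeval t f + aeval t g * s}

lemma key {t s : ℝ} (hts : t ^ 2 + s ^ 2 = 1) {e : ℤ} {u v : ℝ} (hu : u ∈ piece t s e)
    (hv : v ∈ piece t s e) :
    t * u - s * v ∈ piece t s (-e) ∧ s * u + t * v ∈ piece t s (-e) := by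
  obtain ⟨f, g, hf, rfl⟩ := hu
  obtain ⟨h, k, hh, rfl⟩ := hv
  refine ⟨⟨X * f - (1 - X ^ 2) * k, X * g - h, ?_, ?_⟩, ⟨X * h + (1 - X ^ 2) * g, f + X * k, ?_, ?_⟩⟩
  · simp only [eval_sub, eval_mul, eval_X, eval_one, eval_pow]
    rw [hf]; ring
  · simp only [map_sub, map_mul, aeval_X, map_one, map_pow]
    linear_combination (-aeval t k) * hts
  · simp only [eval_sub, eval_add, eval_mul, eval_X, eval_one, eval_pow]
    rw [hh]; ring
  · simp only [map_sub, map_add, map_mul, aeval_X, map_one, map_pow]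
    linear_combination (aeval t g) * hts

lemma key' {t s : ℝ} (hts : t ^ 2 + s ^ 2 = 1) {e : ℤ} {u v : ℝ} (hu : u ∈ piece t s e)
    (hv : v ∈ piece t s e) :
    t * u + s * v ∈ piece t s (-e) ∧ -(s * u) + t * v ∈ piece t s (-e) := by
  obtain ⟨f, g, hf, rfl⟩ := hu
  obtain ⟨h, k, hh, rfl⟩ := hv
  refine ⟨⟨X * f + (1 - X ^ 2) * k, X * g + h, ?_, ?_⟩, ⟨X * h - (1 - X ^ 2) * g, X * k - f, ?_, ?_⟩⟩
  · simp only [eval_sub, eval_add, eval_mul, eval_X, eval_one, eval_pow]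
    rw [hf]; ring
  · simp only [map_sub, map_add, map_mul, aeval_X, map_one, map_pow]
    linear_combination (aeval t k) * hts
  · simp only [eval_sub, eval_add, eval_mul, eval_X, eval_one, eval_pow]
    rw [hh]; ring
  · simp only [map_sub, map_add, map_mul, aeval_X, map_one, map_pow]
    linear_combination (-aeval t g) * hts

lemma sub_mem {t s : ℝ} {e : ℤ} {u v : ℝ} (hu : u ∈ piece t s e)
    (hv : v ∈ piece t s e) : u - v ∈ piece t s e := by
  obtain ⟨f, g, hf, rfl⟩ := hu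
  obtain ⟨h, k, hh, rfl⟩ := hv
  refine ⟨f - h, g - k, ?_, ?_⟩
  · simp only [eval_sub]; rw [hf, hh]; ring
  · simp only [map_sub]; ring

lemma one_mem (t s : ℝ) : (1 : ℝ) ∈ piece t s 1 := ⟨1, 0, by simp, by simp⟩

lemma zero_mem (t s : ℝ) : (0 : ℝ) ∈ piece t s 1 := ⟨0, 0, by simp, by simp⟩

lemma one_notMem {t s : ℝ} (ht : Transcendental ℤ t) (hts : t ^ 2 + s ^ 2 = 1) :
    (1 : ℝ) ∉ piece t s (-1) := by
  rintro ⟨f, g, hf, h1⟩
  have h2 : aeval t ((1 - f) ^ 2 - g ^ 2 * (1 - X ^ 2)) = 0 := by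
    simp only [map_sub, map_mul, aeval_X, map_one, map_pow]
    have h3 : 1 - aeval t f = aeval t g * s := by linarith
    rw [h3]
    linear_combination (aeval t g) ^ 2 * hts
  have h4 : (1 - f) ^ 2 - g ^ 2 * (1 - X ^ 2) = 0 := by
    by_contra hne
    exact ht ⟨_, hne, h2⟩
  have e1 : f.eval 1 = 1 := by
    have := congrArg (eval 1) h4
    simp only [eval_sub, eval_mul, eval_X, eval_one, eval_pow, eval_zero] at this
    nlinarith
  have e2 : f.eval (-1) = 1 := by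
    have := congrArg (eval (-1)) h4
    simp only [eval_sub, eval_mul, eval_X, eval_one, eval_pow, eval_zero] at this
    nlinarith
  rw [e1, e2] at hf
  norm_num at hf

/-- There are two subsets `A, B` of the real line, with the metric inherited from `ℝ`, which are
not isometric although `A × A` and `B × B`, with the Euclidean product metric, are isometric. -/
theorem result : ∃ A B : Set ℝ,
    (∃ φ : (A × A) ≃ (B × B), ∀ p q : A × A,
      Real.sqrt (dist (φ p).1 (φ q).1 ^ 2 + dist (φ p).2 (φ q).2 ^ 2) =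
        Real.sqrt (dist p.1 q.1 ^ 2 + dist p.2 q.2 ^ 2)) ∧
    ¬ ∃ ψ : A ≃ B, ∀ x y : A, dist (ψ x) (ψ y) = dist x y := by
  obtain ⟨t, htL, ht01⟩ := dense_liouville.exists_mem_open isOpen_Ioo
    (⟨1 / 2, by norm_num⟩ : (Set.Ioo (0 : ℝ) 1).Nonempty)
  have ht : Transcendental ℤ t := Liouville.transcendental htL
  obtain ⟨s, hts⟩ : ∃ s : ℝ, t ^ 2 + s ^ 2 = 1 := by
    refine ⟨Real.sqrt (1 - t ^ 2), ?_⟩
    rw [Real.sq_sqrt]
    · ring
    · nlinarith [ht01.1, ht01.2]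
  refine ⟨piece t s 1, piece t s (-1), ⟨?_, ?_⟩, ?_⟩
  · refine
      { toFun := fun p => (⟨t * p.1 - s * p.2, ?_⟩, ⟨s * p.1 + t * p.2, ?_⟩)
        invFun := fun q => (⟨t * q.1 + s * q.2, ?_⟩, ⟨-(s * q.1) + t * q.2, ?_⟩)
        left_inv := ?_
        right_inv := ?_ }
    · exact (key hts p.1.2 p.2.2).1
    · exact (key hts p.1.2 p.2.2).2
    · simpa using (key' hts q.1.2 q.2.2).1
    · simpa using (key' hts q.1.2 q.2.2).2
    · rintro ⟨⟨x, hx⟩, ⟨y, hy⟩⟩
      simp only [Prod.mk.injEq, Subtype.mk.injEq]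
      constructor
      · linear_combination x * hts
      · linear_combination y * hts
    · rintro ⟨⟨x, hx⟩, ⟨y, hy⟩⟩
      simp only [Prod.mk.injEq, Subtype.mk.injEq]
      constructor
      · linear_combination x * hts
      · linear_combination y * hts
  · rintro ⟨⟨x, hx⟩, ⟨y, hy⟩⟩ ⟨⟨x', hx'⟩, ⟨y', hy'⟩⟩
    congr 1
    simp only [Equiv.coe_fn_mk, Subtype.dist_eq, Real.dist_eq, sq_abs]
    linear_combination ((x - x') ^ 2 + (y - y') ^ 2) * hts
  · rintro ⟨ψ, hψ⟩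
    have h := hψ ⟨1, one_mem t s⟩ ⟨0, zero_mem t s⟩
    simp only [Subtype.dist_eq, Real.dist_eq, sub_zero, abs_one] at h
    have hm := (ψ ⟨1, one_mem t s⟩).2
    have hm' := (ψ ⟨0, zero_mem t s⟩).2
    rcases (abs_eq (zero_le_one)).1 h with h | h
    · exact one_notMem ht hts (h ▸ sub_mem hm hm')
    · have h' : (ψ ⟨0, zero_mem t s⟩ : ℝ) - (ψ ⟨1, one_mem t s⟩ : ℝ) = 1 := by linarith
      exact one_notMem ht hts (h' ▸ sub_mem hm' hm)

end Pool.Agent.Results.MP_1231ed_gt.SquareRoots
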